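import Pool.Agent.E8helper36.CF.Stm2

/-!
# Project CF36, piece CH1
-/

set_option autoImplicit false

namespace Pool.Agent.E8helper40.CF

open Pool.Agent.E8helper36.CF

/-- CH1: choice of a point `x` for which the edge that covers the opposite point `y` ends early. -/
theorem t_CH1 (h : S_TOP) : S_CH1 := by
  intro n W hodd hn hW M hN
  by_contra hcon
  have hx : ∀ x : Fin (2 * n), Top M x → ∃ y z : Fin (2 * n),
      ((y : ℕ) + 1 = x + n ∨ (x : ℕ) = y + n + 1) ∧ Top M z ∧ (z : ℕ) < y ∧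
        (y : ℕ) < M.m z ∧ (y : ℕ) + 1 + 2 * W ≤ (M.m z : ℕ) := by
    intro x hxT
    by_contra hc
    apply hcon
    refine ⟨x, hxT, fun y z h1 h2 h3 h4 => ?_⟩
    by_contra h5
    push Not at h5
    exact hc ⟨y, z, h1, h2, h3, h4, h5⟩
  have ft : ∀ z : Fin (2 * n), Top M z → (z : ℕ) % 2 = 0 ∧ (z : ℕ) < M.m z ∧
      (M.m z : ℕ) < z + n ∧ (M.m z : ℕ) % 2 = 1 ∧ (M.m z : ℕ) < 2 * n := by
    intro z hz
    obtain ⟨h1, h2, -⟩ := h n M z hz
    have h3 := parity M h2 rfl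
    have h4 := hN z
    have h5 : (z : ℕ) < M.m z := h2
    have h6 := (M.m z).2
    refine ⟨h1, h5, h4, ?_, h6⟩
    omega
  have ord : ∀ z p : Fin (2 * n), Top M p → (z : ℕ) < p → (M.m z : ℕ) < p :=
    fun z p hp hzp => hp z hzp
  have hodd' : n % 2 = 1 := Nat.odd_iff.1 hodd
  -- the point zero
  have hT0 : Top M (⟨0, by omega⟩ : Fin (2 * n)) := fun j hj => absurd hj (Nat.not_lt_zero _)
  obtain ⟨y0, a, hy0, hTa, ha1, ha2, ha3⟩ := hx _ hT0
  have hy0' : (y0 : ℕ) + 1 = n := by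
    rcases hy0 with h1 | h1
    · simpa using h1
    · exfalso
      have : (0 : ℕ) = y0 + n + 1 := h1
      omega
  obtain ⟨fa1, fa2, fa3, fa4, fa5⟩ := ft a hTa
  obtain ⟨b, hb⟩ : ∃ b : Fin (2 * n), (b : ℕ) = M.m a + 1 := ⟨⟨M.m a + 1, by omega⟩, rfl⟩
  have hTb : Top M b := (h n M a hTa).2.2 b hb
  -- the point a
  obtain ⟨y1, z2, hy1, hT2, h21, h22, h23⟩ := hx a hTa
  have hy1' : (y1 : ℕ) + 1 = a + n := by
    rcases hy1 with h1 | h1
    · exact h1
    · omega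
  obtain ⟨f21, f22, f23, f24, f25⟩ := ft z2 hT2
  have hbz2 : (b : ℕ) ≤ z2 := by
    by_contra hc
    have := ord z2 b hTb (by omega)
    omega
  -- the point z2
  obtain ⟨y2, z4, hy2, hT4, h41, h42, h43⟩ := hx z2 hT2
  have hy2' : (z2 : ℕ) = y2 + n + 1 := by
    rcases hy2 with h1 | h1
    · have := y2.2
      omega
    · exact h1
  have h44 := ord z4 a hTa (by omega)
  -- the point b
  obtain ⟨y3, z3, hy3, hT3, h31, h32, h33⟩ := hx b hTb
  have hy3' : (b : ℕ) = y3 + n + 1 := by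
    rcases hy3 with h1 | h1
    · have := y3.2
      omega
    · exact h1
  have h34 := ord z3 a hTa (by omega)
  obtain ⟨f31, f32, f33, f34, f35⟩ := ft z3 hT3
  -- the point z3
  obtain ⟨y5, z5, hy5, hT5, h51, h52, h53⟩ := hx z3 hT3
  have hy5' : (y5 : ℕ) + 1 = z3 + n := by
    rcases hy5 with h1 | h1
    · exact h1
    · omega
  have h54 := ord z5 b hTb (by omega)
  omega

end Pool.Agent.E8helper40.CF
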